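import Pool.Agent.H42.D2.Hyg
import Pool.Agent.H31.W3.H73.D2.Tle
import Pool.Agent.H31.W.H46.D2.NoLb

/-!
# Closed hyperplanes are labels over the curved frame: the label

`own_frm`: the form along the own line, on one window of the ball. `frm_lab`: the label.
-/

set_option autoImplicit false

namespace Pool.W.NHZ

open Pool.NHZ

open Finset Real MvPolynomial
open Pool.Agent.H49.Ent Pool.Agent.H32.Dense Pool.STK Pool.KA Pool.KSAT Pool.K2S Pool.PB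
open Pool.GEN Pool.D2R Pool.D2Z Pool.D2F Pool.D2G30 Pool.ISO Pool.CHT Pool.CHX Pool.V1E Pool.D2Con
open Pool.PB.Trl (rt rt_mem t_rt)
open Pool.NLB46 (Lab)


section own

variable {m J : ℕ} {F : Pool.KA.Fam m J} {c : ℕ → Fin m} {r D n M ar MB q₀ Q x u p e : ℕ}
  {s : ℕ → ℕ} {qe : Fin r → ℕ} {o : ℕ → ℕ} {z g gc gT g₀ : ℕ → ℕ → ℕ} {B : F.Ω → Prop}
  {G T : ℕ → Pool.GEN.PtT F → ℕ → MvPolynomial (Option (Fin m)) ℝ}
  {H TH : ℕ → Pool.GEN.LnT F → ℕ → MvPolynomial (Option (Fin m)) ℝ}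
  {Ht : Pool.GEN.LnT F → MvPolynomial (Option (Fin m)) ℝ}

/-- The form at the sample, by the heights. -/
theorem fvl_eq (W : Pool.W.V1E.Wdat F c r D n M ar MB q₀ Q x u p e s qe o z g gc gT g₀ B G T H TH Ht)
    {ω : F.Ω} (hω : B ω) {i : ℕ} (hi : i < r) (v : ℕ → ℝ) :
    Pool.NHZ.fvl c s (o 1) i v (G 0 (Pool.PB.ptr F J ω)) (Pool.GEN.bt F ω) =
      (Pool.V1E.hL c s r (o 1) (Pool.V1E.frH F r q₀ (H 0) (Pool.KSAT.slam F (o 1) ω)) (Pool.KSAT.slam F (o 1) ω)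
        (some ⟨i, hi⟩)).eval (Pool.PB.Trl.rt F (o 1) ω) -
      ∑ j ∈ range i, v (j + 1) * (if hj : j < r then
        (Pool.V1E.hL c s r (o 1) (Pool.V1E.frH F r q₀ (H 0) (Pool.KSAT.slam F (o 1) ω)) (Pool.KSAT.slam F (o 1) ω)
          (some ⟨j, hj⟩)).eval (Pool.PB.Trl.rt F (o 1) ω) else 0) -
      v 0 * (((Pool.KSAT.slam F (o 1) ω).2.2 : ℝ) + Pool.PB.Trl.rt F (o 1) ω) := by
  have h1J : o 1 ≤ J := by have := W.oJ; have := W.o3; have := W.o2; omega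
  unfold Pool.NHZ.fvl
  have e1 : ∀ (j : ℕ) (hj : j < r), (Pool.V1E.hL c s r (o 1) (Pool.V1E.frH F r q₀ (H 0) (Pool.KSAT.slam F (o 1) ω))
      (Pool.KSAT.slam F (o 1) ω) (some ⟨j, hj⟩)).eval (Pool.PB.Trl.rt F (o 1) ω) =
      2 ^ s j * (Pool.GEN.bt F ω (some (c j)) - eval (Pool.GEN.bt F ω) (G 0 (Pool.PB.ptr F J ω) j)) := by
    intro j hj
    rw [W.fr hω, Pool.V1E.hL_yp h1J]
    show 2 ^ s j * (Pool.GEN.bt F ω (some (c j)) - eval (Pool.GEN.bt F ω) (Pool.V1E.trn r (G 0 (Pool.PB.ptr F J ω)) j)) = _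
    rw [Pool.V1E.trn_eq hj]
  rw [e1 i hi]
  have e2 : (2 : ℝ) ^ o 1 * Pool.GEN.bt F ω none = ((Pool.KSAT.slam F (o 1) ω).2.2 : ℝ) + Pool.PB.Trl.rt F (o 1) ω := by
    have h := Pool.PB.Trl.t_rt F h1J ω
    show (2 : ℝ) ^ o 1 * F.t ω = _
    rw [h]
    field_simp
  rw [e2]
  congr 2
  refine Finset.sum_congr rfl fun j hj => ?_
  have hj' : j < r := (Finset.mem_range.1 hj).trans hi
  rw [dif_pos hj', e1 j hj']

/-- **The form along the own line**, on one window of the ball. -/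
theorem own_frm (D : ℕ) : ∃ C : ℝ, 1 ≤ C ∧ ∀ {m J : ℕ} {F : Pool.KA.Fam m J} {c : ℕ → Fin m}
    {r n M ar MB q₀ Q x u p e : ℕ} {s : ℕ → ℕ} {qe : Fin r → ℕ} {o : ℕ → ℕ}
    {z g gc gT g₀ : ℕ → ℕ → ℕ} {B : F.Ω → Prop}
    {G T : ℕ → Pool.GEN.PtT F → ℕ → MvPolynomial (Option (Fin m)) ℝ}
    {H TH : ℕ → Pool.GEN.LnT F → ℕ → MvPolynomial (Option (Fin m)) ℝ}
    {Ht : Pool.GEN.LnT F → MvPolynomial (Option (Fin m)) ℝ},
    Pool.W.V1E.Wdat F c r D n M ar MB q₀ Q x u p e s qe o z g gc gT g₀ B G T H TH Ht →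
    ∀ {ω ω' : F.Ω}, B ω → B ω' → Pool.KSAT.slam F (o 2) ω = Pool.KSAT.slam F (o 2) ω' → ∀ (i : Fin r)
    (v : Fin (r + 1) → ℝ) {Mv ε : ℝ}, 0 ≤ Mv → (∀ j, |v j| ≤ Mv) →
    |Pool.V1E.Xe r qe (Pool.V1E.eL c s r (o 1) qe (Pool.V1E.frH F r q₀ (H 0) (Pool.KSAT.slam F (o 1) ω)) (Pool.KSAT.slam F (o 1) ω)) i.succ -
      ∑ j, (if j < i.succ then v j * Pool.V1E.Xe r qe (Pool.V1E.eL c s r (o 1) qe
        (Pool.V1E.frH F r q₀ (H 0) (Pool.KSAT.slam F (o 1) ω)) (Pool.KSAT.slam F (o 1) ω)) j else 0)| ≤ ε →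
    |Pool.NHZ.fvl c s (o 1) i (Pool.NHZ.vN v) (G 0 (Pool.PB.ptr F J ω)) (Pool.GEN.bt F ω) -
      Pool.NHZ.fvl c s (o 1) i (Pool.NHZ.vN v) (G 0 (Pool.PB.ptr F J ω')) (Pool.GEN.bt F ω')| ≤
      (ε + (1 + r * Mv) * (C * 2 ^ (u + x) / 2 ^ q₀ + 1 / 2 ^ (MB + Q))) / 2 ^ Q := by
  obtain ⟨C, hC, hhn⟩ := Pool.V1E.hL_near D
  refine ⟨C, hC, ?_⟩
  intro m J F c r n M ar MB q₀ Q x u p e s qe o z g gc gT g₀ B G T H TH Ht W ω ω' hω hω' hsl i v Mv ε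
    hMv hv hε
  have h1J : o 1 ≤ J := by have := W.oJ; have := W.o3; have := W.o2; omega
  have h2J : o 2 ≤ J := by have := W.oJ; have := W.o3; omega
  have h12 : o 1 ≤ o 2 := by have := W.o2; omega
  have hs1 : Pool.KSAT.slam F (o 1) ω = Pool.KSAT.slam F (o 1) ω' := by
    rw [Pool.PB.slam_coarse F h12 h2J ω, Pool.PB.slam_coarse F h12 h2J ω', hsl]
  obtain ⟨L, hL'⟩ : ∃ L, L = Pool.KSAT.slam F (o 1) ω := ⟨_, rfl⟩
  obtain ⟨P, hP⟩ : ∃ P, P = Pool.V1E.frH F r q₀ (H 0) L := ⟨_, rfl⟩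
  obtain ⟨h, hh⟩ : ∃ h : ℕ → Polynomial ℝ, h = fun j => if hj : j < r then
    Pool.V1E.hL c s r (o 1) P L (some ⟨j, hj⟩) else 0 := ⟨_, rfl⟩
  -- the polynomial
  obtain ⟨Φ, hΦ⟩ : ∃ Φ : Polynomial ℝ, Φ = h i - ∑ j ∈ range i, Polynomial.C (Pool.NHZ.vN v (j + 1)) * h j -
    Polynomial.C (Pool.NHZ.vN v 0) * (Polynomial.C ((L.2.2 : ℕ) : ℝ) + Polynomial.X) := ⟨_, rfl⟩
  have hev : ∀ ν, B ν → Pool.KSAT.slam F (o 1) ν = L →
      Pool.NHZ.fvl c s (o 1) i (Pool.NHZ.vN v) (G 0 (Pool.PB.ptr F J ν)) (Pool.GEN.bt F ν) = Φ.eval (Pool.PB.Trl.rt F (o 1) ν) := by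
    intro ν hν hLν
    rw [Pool.W.NHZ.fvl_eq W hν i.isLt, hLν, ← hP, hΦ, Polynomial.eval_sub, Polynomial.eval_sub,
      Polynomial.eval_finset_sum, Polynomial.eval_mul, Polynomial.eval_add, Polynomial.eval_C,
      Polynomial.eval_C, Polynomial.eval_X]
    congr 2
    · rw [hh]
      beta_reduce
      rw [dif_pos i.isLt]
    · refine Finset.sum_congr rfl fun j hj => ?_
      have hj' : j < r := (Finset.mem_range.1 hj).trans i.isLt
      rw [Polynomial.eval_mul, Polynomial.eval_C, hh]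
      beta_reduce
      rw [dif_pos hj', dif_pos hj']
  have hcoL : Pool.D2R.co q₀ L = Pool.KSAT.slam F (o 0) ω := by
    have h2 := Pool.D2R.co_slam F (w := o 0) (a := o 1) (by have := W.o1; omega) h1J ω
    rw [hL']
    rwa [W.o1, Nat.add_sub_cancel_left, ← W.o1] at h2
  -- the derivatives
  obtain ⟨Δ, hΔ⟩ : ∃ Δ : ℝ, Δ = C * 2 ^ (u + x) / 2 ^ q₀ + 1 / 2 ^ (MB + Q) := ⟨_, rfl⟩
  have hΔ0 : 0 ≤ Δ := by
    rw [hΔ]
    positivity
  obtain ⟨y, hy⟩ : ∃ y : ℕ → ℝ, y = fun j => if hj : j < r then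
    ((Pool.V1E.eL c s r (o 1) qe P L ⟨j, hj⟩ : ℤ) : ℝ) / 2 ^ qe ⟨j, hj⟩ else 0 := ⟨_, rfl⟩
  have hder : ∀ j < r, ∀ τ ∈ Set.Icc (0 : ℝ) 1,
      |(Polynomial.derivative (h j)).eval τ - y j| ≤ Δ := by
    intro j hj τ hτ
    have h3 := (hhn (F := F) (c := c) (s := s) (d := r) (wb := o 0) (q₀ := q₀) (H₀ := H 0)
      (L := L) (M := 2 ^ u / 2 ^ g₀ 0 j) (i := ⟨j, hj⟩) (W.dH 0 _ _) (by
        rw [hcoL]
        exact W.own0 ω hω j hj) τ hτ).2.1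
    rw [← W.o1, ← hP] at h3
    have h4 : |(Polynomial.derivative (Pool.V1E.hL c s r (o 1) P L (some ⟨j, hj⟩))).eval 0 - y j| ≤
        1 / 2 ^ (MB + Q) := by
      have e1 : y j = ((⌊2 ^ qe ⟨j, hj⟩ * (Polynomial.derivative (Pool.V1E.hL c s r (o 1) P L
          (some ⟨j, hj⟩))).eval 0⌋ : ℤ) : ℝ) / 2 ^ qe ⟨j, hj⟩ := by
        rw [hy]
        beta_reduce
        rw [dif_pos hj]
        rfl
      obtain ⟨f, hf⟩ : ∃ f, f = (Polynomial.derivative (Pool.V1E.hL c s r (o 1) P L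
        (some ⟨j, hj⟩))).eval 0 := ⟨_, rfl⟩
      rw [e1, ← hf]
      have h5 := Int.floor_le ((2 : ℝ) ^ qe ⟨j, hj⟩ * f)
      have h6 := (Int.lt_floor_add_one ((2 : ℝ) ^ qe ⟨j, hj⟩ * f)).le
      have h7 : (0 : ℝ) < 2 ^ qe ⟨j, hj⟩ := by positivity
      have h8 : (1 : ℝ) / 2 ^ qe ⟨j, hj⟩ ≤ 1 / 2 ^ (MB + Q) :=
        one_div_le_one_div_of_le (by positivity) (pow_le_pow_right₀ (by norm_num) (W.qeM _))
      refine le_trans ?_ h8
      have e2 : f - ((⌊2 ^ qe ⟨j, hj⟩ * f⌋ : ℤ) : ℝ) / 2 ^ qe ⟨j, hj⟩ =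
          (2 ^ qe ⟨j, hj⟩ * f - ((⌊2 ^ qe ⟨j, hj⟩ * f⌋ : ℤ) : ℝ)) / 2 ^ qe ⟨j, hj⟩ := by
        field_simp
      rw [e2, abs_div, abs_of_pos h7]
      refine div_le_div_of_nonneg_right ?_ h7.le
      rw [abs_le]
      constructor <;> linarith
    have h5 : C * (2 ^ s j * (2 ^ u / 2 ^ g₀ 0 j) / 2 ^ q₀) / 2 ^ q₀ ≤
        C * 2 ^ (u + x) / 2 ^ q₀ := by
      refine div_le_div_of_nonneg_right (mul_le_mul_of_nonneg_left ?_ (by linarith))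
        (by positivity)
      rw [← mul_div_assoc, div_div, ← pow_add, ← pow_add, div_le_iff₀ (by positivity), ← pow_add]
      refine pow_le_pow_right₀ (by norm_num) ?_
      have := W.n0 j hj
      omega
    have e3 : h j = Pool.V1E.hL c s r (o 1) P L (some ⟨j, hj⟩) := by
      rw [hh]
      beta_reduce
      rw [dif_pos hj]
    rw [e3]
    have h6 := abs_sub_le ((Polynomial.derivative (Pool.V1E.hL c s r (o 1) P L (some ⟨j, hj⟩))).eval τ)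
      ((Polynomial.derivative (Pool.V1E.hL c s r (o 1) P L (some ⟨j, hj⟩))).eval 0) (y j)
    rw [hΔ]
    linarith
  have hXe : ∀ j : Fin r, Pool.V1E.Xe r qe (Pool.V1E.eL c s r (o 1) qe P L) j.succ = y j := by
    intro j
    rw [hy]
    beta_reduce
    rw [dif_pos j.isLt]
    rfl
  rw [← hL', ← hP, hXe i, Pool.NHZ.sum_piv i v _ y rfl hXe] at hε
  have hdΦ : ∀ τ ∈ Set.Icc (0 : ℝ) 1, |(Polynomial.derivative Φ).eval τ| ≤
      ε + (1 + r * Mv) * Δ := by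
    intro τ hτ
    have e1 : (Polynomial.derivative Φ).eval τ = (y i - (Pool.NHZ.vN v 0 + ∑ j ∈ range i,
        Pool.NHZ.vN v (j + 1) * y j)) + ((Polynomial.derivative (h i)).eval τ - y i) -
        ∑ j ∈ range i, Pool.NHZ.vN v (j + 1) * ((Polynomial.derivative (h j)).eval τ - y j) := by
      rw [hΦ]
      simp only [Polynomial.derivative_sub, Polynomial.derivative_sum, Polynomial.derivative_mul,
        Polynomial.derivative_C, Polynomial.derivative_add, Polynomial.derivative_X, zero_mul,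
        zero_add, mul_one, Polynomial.eval_sub, Polynomial.eval_finset_sum, Polynomial.eval_mul,
        Polynomial.eval_C]
      have e2 : ∑ j ∈ range i, Pool.NHZ.vN v (j + 1) * ((Polynomial.derivative (h j)).eval τ - y j) =
          ∑ j ∈ range i, Pool.NHZ.vN v (j + 1) * (Polynomial.derivative (h j)).eval τ -
            ∑ j ∈ range i, Pool.NHZ.vN v (j + 1) * y j := by
        rw [← Finset.sum_sub_distrib]
        exact Finset.sum_congr rfl fun j _ => by ring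
      rw [e2]
      ring
    rw [e1]
    have h3 := hder i i.isLt τ hτ
    have h4 : |∑ j ∈ range i, Pool.NHZ.vN v (j + 1) * ((Polynomial.derivative (h j)).eval τ - y j)| ≤
        r * Mv * Δ := by
      refine (Finset.abs_sum_le_sum_abs _ _).trans ?_
      have h5 : ∀ j ∈ range i, |Pool.NHZ.vN v (j + 1) * ((Polynomial.derivative (h j)).eval τ - y j)| ≤
          Mv * Δ := by
        intro j hj
        rw [abs_mul]
        exact mul_le_mul (Pool.NHZ.vN_le hMv hv _) (hder j ((Finset.mem_range.1 hj).trans i.isLt) τ hτ)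
          (abs_nonneg _) hMv
      refine (Finset.sum_le_sum h5).trans ?_
      rw [Finset.sum_const, Finset.card_range, nsmul_eq_mul, mul_assoc]
      refine mul_le_mul_of_nonneg_right ?_ (by positivity)
      exact_mod_cast i.isLt.le
    refine (abs_sub _ _).trans ((add_le_add ((abs_add_le _ _).trans (add_le_add hε h3)) h4).trans
      (le_of_eq (by ring)))
  rw [hev ω hω hL'.symm, hev ω' hω' (by rw [← hs1, ← hL']), ← hΔ]
  refine (Pool.NHZ.pl_mv Φ hdΦ (Pool.PB.Trl.rt_mem F (o 1) ω) (Pool.PB.Trl.rt_mem F (o 1) ω')).trans ?_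
  rw [div_eq_mul_one_div]
  refine mul_le_mul_of_nonneg_left ?_ ((abs_nonneg _).trans (hdΦ 0 ⟨le_rfl, zero_le_one⟩))
  -- the times
  have t1 := Pool.PB.Trl.t_rt F h1J ω
  have t2 := Pool.PB.Trl.t_rt F h1J ω'
  have t3 := Pool.PB.Trl.t_rt F h2J ω
  have t4 := Pool.PB.Trl.t_rt F h2J ω'
  rw [← hs1] at t2
  rw [← hsl] at t4
  have m1 := Pool.PB.Trl.rt_mem F (o 2) ω
  have m2 := Pool.PB.Trl.rt_mem F (o 2) ω'
  have p1 : (0 : ℝ) < 2 ^ o 1 := by positivity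
  have p2 : (0 : ℝ) < 2 ^ o 2 := by positivity
  have pQ : (0 : ℝ) < 2 ^ Q := by positivity
  have e1 : Pool.PB.Trl.rt F (o 1) ω - Pool.PB.Trl.rt F (o 1) ω' = 2 ^ o 1 * (F.t ω - F.t ω') := by
    rw [t1, t2]
    field_simp
    ring
  have e2 : F.t ω - F.t ω' = (Pool.PB.Trl.rt F (o 2) ω - Pool.PB.Trl.rt F (o 2) ω') / 2 ^ o 2 := by
    rw [t3, t4]
    field_simp
    ring
  rw [e1, e2, W.o2, pow_add]
  have e3 : (2 : ℝ) ^ o 1 * ((Pool.PB.Trl.rt F (o 2) ω - Pool.PB.Trl.rt F (o 2) ω') / (2 ^ o 1 * 2 ^ Q)) =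
      (Pool.PB.Trl.rt F (o 2) ω - Pool.PB.Trl.rt F (o 2) ω') / 2 ^ Q := by
    field_simp
  rw [W.o2] at m1 m2
  rw [W.o2] at e3
  rw [e3, abs_div, abs_of_pos pQ]
  refine div_le_div_of_nonneg_right ?_ pQ.le
  rw [abs_le]
  constructor <;> linarith [m1.1, m1.2, m2.1, m2.2]

end own

end Pool.W.NHZ
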