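import Pool.Agent.H42.D2.Hyh
import Pool.Agent.H31.W3.H42.D2.Hyg
import Pool.Agent.H3.W.Nlp
import Pool.Agent.H31.W.H42.D2.Hyf
import Pool.Agent.H31.W.H42.D2.Hyh
import Pool.Agent.H31.W.H46.D2.NoLb
import Pool.Agent.H31.W1.H80.GEN.Chn

/-!
# Closed hyperplanes are labels over the curved frame: the label

`frm_ch`: the chain. `frm_lab`: the label.
-/

set_option autoImplicit false

namespace Pool.W.NHZ

open Pool.NHZ

open Finset Real MvPolynomial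
open Pool.Agent.H49.Ent Pool.Agent.H32.Dense Pool.STK Pool.KA Pool.KSAT Pool.K2S Pool.PB
open Pool.GEN Pool.D2R Pool.D2Z Pool.D2F Pool.D2G30 Pool.ISO Pool.CHT Pool.CHX Pool.V1E Pool.D2Con
open Pool.PB.Trl (rt rt_mem t_rt)
open Pool.NLB46 (Lab)

section lab

variable {m J : ℕ} {F : Pool.KA.Fam m J} {c : ℕ → Fin m} {r D n M ar MB q₀ Q x u p e : ℕ}
  {s : ℕ → ℕ} {qe : Fin r → ℕ} {o : ℕ → ℕ} {z g gc gT g₀ : ℕ → ℕ → ℕ} {B : F.Ω → Prop}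
  {G T : ℕ → Pool.GEN.PtT F → ℕ → MvPolynomial (Option (Fin m)) ℝ}
  {H TH : ℕ → Pool.GEN.LnT F → ℕ → MvPolynomial (Option (Fin m)) ℝ}
  {Ht : Pool.GEN.LnT F → MvPolynomial (Option (Fin m)) ℝ}

/-- **The chain**, over a window behind the ball. -/
theorem frm_ch (W : Pool.W.V1E.Wdat F c r D n M ar MB q₀ Q x u p e s qe o z g gc gT g₀ B G T H TH Ht)
    {i e' w : ℕ} (hi : i ≤ r) {B₁ : F.Ω → Prop} (hB : Pool.K2S.Sub B₁ B) (he : e ≤ e') (hw : o 2 ≤ w)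
    (hwJ : w ≤ J) :
    Pool.W.GEN.ChOK F c i (fun _ => D) w w e' (fun l => g 0 l + (o 2 - o 0)) B₁
      (fun y l => Pool.GEN.Gno (c l) J J (fun y => G 0 y l) y)
      (fun s l => Pool.GEN.Hno (c l) (fun s => H 0 s l) (Pool.D2R.co (w - o 0) s)) := by
  have hR := W.rad0
  have h02 : o 0 ≤ w := by have := W.o1; have := W.o2; omega
  refine ⟨hR.degG, fun s l => hR.degH _ l, hR.depG, fun s l => hR.depH _ l,
    fun ω hω l hl => hR.pos ω (hB ω hω) l (by omega), fun ω hω l hl b hb => ?_,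
    fun ω hω l hl b hb j hj => ?_⟩
  · have h1 := hR.agr ω (hB ω hω) l (by omega) b (Pool.GEN.NBx.mono hb hw le_rfl)
    beta_reduce at h1 ⊢
    rw [Pool.D2R.co_slam F h02 hwJ]
    exact h1
  · exact (hR.lip ω (hB ω hω) l (by omega) b (Pool.GEN.NBx.mono hb hw le_rfl) j hj).trans
      (pow_le_pow_right₀ (by norm_num) (by omega))


end lab


/-- **The label.** -/
theorem frm_lab (D r : ℕ) : ∃ C : ℕ, ∀ {m J : ℕ} {F : Pool.KA.Fam m J} {c : ℕ → Fin m}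
    {n M ar MB q₀ Q x u p e : ℕ} {s : ℕ → ℕ} {qe : Fin r → ℕ} {o : ℕ → ℕ}
    {z g gc gT g₀ : ℕ → ℕ → ℕ} {B : F.Ω → Prop}
    {G T : ℕ → Pool.GEN.PtT F → ℕ → MvPolynomial (Option (Fin m)) ℝ}
    {H TH : ℕ → Pool.GEN.LnT F → ℕ → MvPolynomial (Option (Fin m)) ℝ}
    {Ht : Pool.GEN.LnT F → MvPolynomial (Option (Fin m)) ℝ},
    Pool.W.V1E.Wdat F c r D n M ar MB q₀ Q x u p e s qe o z g gc gT g₀ B G T H TH Ht →
    ∀ {B₁ : F.Ω → Prop}, Pool.K2S.Sub B₁ B → ∀ {w : ℕ}, o 2 ≤ w → w ≤ J → ∀ {ζ : Type} {Z : F.Ω → ζ},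
    (∀ ω ω', B₁ ω → B₁ ω' → Pool.PB.ptr F J ω = Pool.PB.ptr F J ω' → Z ω = Z ω') →
    (∀ ω ω', B₁ ω → B₁ ω' → Pool.KSAT.slam F w ω = Pool.KSAT.slam F w ω' → Z ω = Z ω') →
    ∀ (i : Fin r) (v : ζ → Fin (r + 1) → ℝ) {N Gn : ℕ}, (∀ ω, B₁ ω → ∀ j, |v (Z ω) j| ≤ 2 ^ N) →
    (∀ ω, B₁ ω →
      |Pool.V1E.Xe r qe (Pool.V1E.eL c s r (o 1) qe (Pool.V1E.frH F r q₀ (H 0) (Pool.KSAT.slam F (o 1) ω)) (Pool.KSAT.slam F (o 1) ω)) i.succ -
      ∑ j, (if j < i.succ then v (Z ω) j * Pool.V1E.Xe r qe (Pool.V1E.eL c s r (o 1) qe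
        (Pool.V1E.frH F r q₀ (H 0) (Pool.KSAT.slam F (o 1) ω)) (Pool.KSAT.slam F (o 1) ω)) j else 0)| ≤ 1 / 2 ^ (Gn + 2)) →
    C * (u + x + 1) + N + Gn ≤ MB →
    (∀ l < r, e + s l + Q + (C * (u + x + 1) + N + Gn) ≤ J) →
    ∃ (Gt : Pool.GEN.PtT F → MvPolynomial (Option (Fin m)) ℝ)
      (Ht' : Pool.GEN.LnT F → MvPolynomial (Option (Fin m)) ℝ),
      Pool.W.NLB46.Lab F c i (D + 1) w w (e + (N + Gn + 3 * x + r)) (s i + Q + Gn)
        (fun l => g 0 l + (o 2 - o 0)) (fun y l => Pool.GEN.Gno (c l) J J (fun y => G 0 y l) y) B₁ Gt Ht' := by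
  classical
  obtain ⟨C₁, hC₁, hrnd⟩ := Pool.W.NHZ.rnd_ev D r
  obtain ⟨C₀, hC₀, hown⟩ := Pool.W.NHZ.own_frm D
  obtain ⟨N₁, hN₁⟩ := pow_unbounded_of_one_lt ((1 + ((r : ℝ) + 1) ^ 2) * (1 + r))
    (one_lt_two (α := ℝ))
  obtain ⟨N₂, hN₂⟩ := pow_unbounded_of_one_lt ((C₀ + 1) * (1 + (r : ℝ))) (one_lt_two (α := ℝ))
  refine ⟨C₁ + N₁ + N₂ + 8, ?_⟩
  intro m J F c n M ar MB q₀ Q x u p e s qe o z g gc gT g₀ B G T H TH Ht W B₁ hB w hw2 hwJ ζ Z hZp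
    hZs i v N Gn hv hX hMB hJ
  obtain ⟨CC, hCC⟩ : ∃ CC, CC = (C₁ + N₁ + N₂ + 8) * (u + x + 1) := ⟨_, rfl⟩
  rw [← hCC] at hMB
  simp only [← hCC] at hJ
  have hCC1 : C₁ + N₁ + N₂ + 8 ≤ CC := by
    rw [hCC]
    exact Nat.le_mul_of_pos_right _ (by omega)
  have hCCx : 8 * x + C₁ + N₁ ≤ CC := by
    rw [hCC]
    nlinarith [Nat.zero_le (C₁ * u), Nat.zero_le (C₁ * x), Nat.zero_le (N₁ * u),
      Nat.zero_le (N₁ * x), Nat.zero_le (N₂ * u), Nat.zero_le (N₂ * x), Nat.zero_le N₂]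
  have hCCu : N₂ + u + x + 2 ≤ CC := by
    rw [hCC]
    nlinarith [Nat.zero_le (C₁ * u), Nat.zero_le (C₁ * x), Nat.zero_le (N₁ * u),
      Nat.zero_le (N₁ * x), Nat.zero_le (N₂ * u), Nat.zero_le (N₂ * x), Nat.zero_le C₁,
      Nat.zero_le N₁]
  have h1J : o 1 ≤ J := by have := W.oJ; have := W.o3; have := W.o2; omega
  have h2J : o 2 ≤ J := by have := W.oJ; have := W.o3; omega
  have h02 : o 0 ≤ o 2 := by have := W.o1; have := W.o2; omega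
  have h12 : o 1 ≤ o 2 := by have := W.o2; omega
  obtain ⟨g', hg'⟩ : ∃ g' : ℕ → ℕ, g' = fun l => g 0 l + (o 2 - o 0) := ⟨_, rfl⟩
  have hg1 : ∀ j < r, g' j ≤ s j + Q + x := fun j hj => by
    rw [hg']
    exact W.n2d j hj
  have hg2 : ∀ j < r, s j + Q ≤ g' j + 2 * x := fun j hj => by
    rw [hg']
    have h3 := W.n2b j hj
    have h4 := W.n2c j hj
    show s j + Q ≤ g 0 j + (o 2 - o 0) + 2 * x
    omega
  have hdeg : ∀ (y : Pool.GEN.PtT F) (l : ℕ), (Pool.GEN.Gno (c l) J J (fun y => G 0 y l) y).totalDegree ≤ D :=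
    fun y l => W.rad0.degG y l
  have hdep : ∀ (y : Pool.GEN.PtT F) (l : ℕ), Pool.GEN.DepC c l (Pool.GEN.Gno (c l) J J (fun y => G 0 y l) y) :=
    fun y l => W.rad0.depG y l
  -- rounding of one height
  have hrh : ∀ ω ω', B₁ ω → B₁ ω' → Pool.PB.ptr F J ω = Pool.PB.ptr F J ω' → ∀ j < r,
      |2 ^ s j * (Pool.GEN.bt F ω' (some (c j)) - eval (Pool.GEN.bt F ω') (G 0 (Pool.PB.ptr F J ω) j)) -
        2 ^ s j * (Pool.GEN.bt F ω (some (c j)) - eval (Pool.GEN.bt F ω) (G 0 (Pool.PB.ptr F J ω) j))| ≤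
      (1 + ((r : ℝ) + 1) ^ 2) * (1 / 2 ^ (Q + (N + Gn + N₁ + 1))) := by
    intro ω ω' hω hω' hpp j hj
    obtain ⟨-, hn0, hxk⟩ := Pool.D2R.bt_near hpp
    have h3 := hrnd (J := J) (c := c) (a := o 2) (e := e) (V := N + Gn + N₁ + 1 + 2 * x) (g := g')
      (G := fun l => Pool.GEN.Gno (c l) J J (fun y => G 0 y l) (Pool.PB.ptr F J ω)) (x := Pool.GEN.bt F ω)
      (x' := Pool.GEN.bt F ω') W.hcr (hdeg _) (hdep _) (fun l hl b hb k hk => by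
        rw [hg']
        rw [hg'] at hb
        exact W.rad0.lip ω (hB ω hω) l (by omega) b hb k hk) (fun l hl => by
        rw [hg']
        exact W.rad0.pos ω (hB ω hω) l (by omega)) hn0.symm (fun k => by
        rw [abs_sub_comm]
        exact hxk k) (fun l hl => by
        have h4 := hJ l hl
        have h5 := hg1 l hl
        omega) j hj
    have e1 : ∀ b : Option (Fin m) → ℝ, eval b (Pool.GEN.Gno (c j) J J (fun y => G 0 y j) (Pool.PB.ptr F J ω)) =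
        eval b (G 0 (Pool.PB.ptr F J ω) j) + (((Pool.PB.ptr F J ω).1 (c j) : ℝ) / 2 ^ J -
          eval (Pool.GEN.bho J J (Pool.PB.ptr F J ω)) (G 0 (Pool.PB.ptr F J ω) j)) := fun b => by
      unfold Pool.GEN.Gno
      rw [map_add, eval_C]
    beta_reduce at h3
    rw [e1, e1] at h3
    have h4 : |Pool.GEN.bt F ω' (some (c j)) - Pool.GEN.bt F ω (some (c j))| ≤ 1 / 2 ^ J := by
      rw [abs_sub_comm]
      exact hxk (c j)
    obtain ⟨P1, hP1⟩ : ∃ P1, P1 = eval (Pool.GEN.bt F ω') (G 0 (Pool.PB.ptr F J ω) j) := ⟨_, rfl⟩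
    obtain ⟨P0, hP0⟩ : ∃ P0, P0 = eval (Pool.GEN.bt F ω) (G 0 (Pool.PB.ptr F J ω) j) := ⟨_, rfl⟩
    obtain ⟨K, hK⟩ : ∃ K : ℝ, K = ((Pool.PB.ptr F J ω).1 (c j) : ℝ) / 2 ^ J -
      eval (Pool.GEN.bho J J (Pool.PB.ptr F J ω)) (G 0 (Pool.PB.ptr F J ω) j) := ⟨_, rfl⟩
    rw [← hP1, ← hP0, ← hK] at h3
    rw [← hP1, ← hP0]
    have e2 : P1 + K - (P0 + K) = P1 - P0 := by ring
    rw [e2] at h3
    have hsj : (0 : ℝ) < 2 ^ s j := by positivity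
    rw [← mul_sub, abs_mul, abs_of_pos hsj]
    have e3 : Pool.GEN.bt F ω' (some (c j)) - P1 - (Pool.GEN.bt F ω (some (c j)) - P0) =
        (Pool.GEN.bt F ω' (some (c j)) - Pool.GEN.bt F ω (some (c j))) - (P1 - P0) := by ring
    rw [e3]
    have h5 := (abs_sub (Pool.GEN.bt F ω' (some (c j)) - Pool.GEN.bt F ω (some (c j))) (P1 - P0)).trans
      (add_le_add h4 h3)
    have h6 : (2 : ℝ) ^ s j * (1 / 2 ^ J) ≤ 1 / 2 ^ (Q + (N + Gn + N₁ + 1)) := by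
      rw [mul_one_div, div_le_div_iff₀ (by positivity) (by positivity), one_mul, ← pow_add]
      refine pow_le_pow_right₀ (by norm_num) ?_
      have := hJ j hj
      omega
    have h7 : (2 : ℝ) ^ s j * (1 / 2 ^ (g' j + (N + Gn + N₁ + 1 + 2 * x))) ≤
        1 / 2 ^ (Q + (N + Gn + N₁ + 1)) := by
      rw [mul_one_div, div_le_div_iff₀ (by positivity) (by positivity), one_mul, ← pow_add]
      refine pow_le_pow_right₀ (by norm_num) ?_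
      have := hg2 j hj
      omega
    have h8 := mul_le_mul_of_nonneg_left h5 hsj.le
    have h9 := mul_le_mul_of_nonneg_left h7 (by positivity : (0 : ℝ) ≤ ((r : ℝ) + 1) ^ 2)
    refine h8.trans ?_
    have e4 : (2 : ℝ) ^ s j * (1 / 2 ^ J + ((r : ℝ) + 1) ^ 2 *
        (1 / 2 ^ (g' j + (N + Gn + N₁ + 1 + 2 * x)))) = 2 ^ s j * (1 / 2 ^ J) +
        ((r : ℝ) + 1) ^ 2 * (2 ^ s j * (1 / 2 ^ (g' j + (N + Gn + N₁ + 1 + 2 * x)))) := by ring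
    rw [e4]
    linarith
  -- rounding of the form
  have hrf : ∀ ω ω', B₁ ω → B₁ ω' → Pool.PB.ptr F J ω = Pool.PB.ptr F J ω' →
      |Pool.NHZ.fvl c s (o 1) i (Pool.NHZ.vN (v (Z ω))) (G 0 (Pool.PB.ptr F J ω)) (Pool.GEN.bt F ω') -
        Pool.NHZ.fvl c s (o 1) i (Pool.NHZ.vN (v (Z ω))) (G 0 (Pool.PB.ptr F J ω)) (Pool.GEN.bt F ω)| ≤
      1 / 2 ^ (Q + Gn + 1) := by
    intro ω ω' hω hω' hpp
    obtain ⟨-, hn0, -⟩ := Pool.D2R.bt_near hpp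
    obtain ⟨a, ha⟩ : ∃ a : ℕ → ℝ, a = fun j =>
      2 ^ s j * (Pool.GEN.bt F ω' (some (c j)) - eval (Pool.GEN.bt F ω') (G 0 (Pool.PB.ptr F J ω) j)) := ⟨_, rfl⟩
    obtain ⟨b, hb⟩ : ∃ b : ℕ → ℝ, b = fun j =>
      2 ^ s j * (Pool.GEN.bt F ω (some (c j)) - eval (Pool.GEN.bt F ω) (G 0 (Pool.PB.ptr F J ω) j)) := ⟨_, rfl⟩
    obtain ⟨ρ, hρ⟩ : ∃ ρ : ℝ, ρ = (1 + ((r : ℝ) + 1) ^ 2) *
      (1 / 2 ^ (Q + (N + Gn + N₁ + 1))) := ⟨_, rfl⟩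
    have hρ0 : 0 ≤ ρ := by
      rw [hρ]
      positivity
    have hab : ∀ j < r, |a j - b j| ≤ ρ := fun j hj => by
      rw [ha, hb, hρ]
      exact hrh ω ω' hω hω' hpp j hj
    have e1 : Pool.NHZ.fvl c s (o 1) i (Pool.NHZ.vN (v (Z ω))) (G 0 (Pool.PB.ptr F J ω)) (Pool.GEN.bt F ω') -
        Pool.NHZ.fvl c s (o 1) i (Pool.NHZ.vN (v (Z ω))) (G 0 (Pool.PB.ptr F J ω)) (Pool.GEN.bt F ω) =
        (a i - b i) - ∑ j ∈ range i, Pool.NHZ.vN (v (Z ω)) (j + 1) * (a j - b j) := by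
      unfold Pool.NHZ.fvl
      rw [← hn0, ha, hb]
      have e2 : ∀ a b : ℕ → ℝ, ∑ j ∈ range i, Pool.NHZ.vN (v (Z ω)) (j + 1) * (a j - b j) =
          ∑ j ∈ range i, Pool.NHZ.vN (v (Z ω)) (j + 1) * a j -
            ∑ j ∈ range i, Pool.NHZ.vN (v (Z ω)) (j + 1) * b j := by
        intro a b
        rw [← Finset.sum_sub_distrib]
        exact Finset.sum_congr rfl fun j _ => by ring
      rw [e2]
      ring
    rw [e1]
    have h3 : |∑ j ∈ range i, Pool.NHZ.vN (v (Z ω)) (j + 1) * (a j - b j)| ≤ r * (2 ^ N * ρ) := by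
      refine (Finset.abs_sum_le_sum_abs _ _).trans ?_
      have h5 : ∀ j ∈ range i, |Pool.NHZ.vN (v (Z ω)) (j + 1) * (a j - b j)| ≤ 2 ^ N * ρ := by
        intro j hj
        rw [abs_mul]
        exact mul_le_mul (Pool.NHZ.vN_le (by positivity) (hv ω hω) _)
          (hab j ((Finset.mem_range.1 hj).trans i.isLt)) (abs_nonneg _) (by positivity)
      refine (Finset.sum_le_sum h5).trans ?_
      rw [Finset.sum_const, Finset.card_range, nsmul_eq_mul]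
      refine mul_le_mul_of_nonneg_right ?_ (by positivity)
      exact_mod_cast i.isLt.le
    have h4 := (abs_sub (a i - b i) (∑ j ∈ range i, Pool.NHZ.vN (v (Z ω)) (j + 1) * (a j - b j))).trans
      (add_le_add (hab i i.isLt) h3)
    refine h4.trans ?_
    have hN1 : (1 : ℝ) ≤ 2 ^ N := one_le_pow₀ (by norm_num)
    have h5 : ρ + r * (2 ^ N * ρ) ≤ (1 + r) * 2 ^ N * ρ := by
      have h6 : ρ ≤ 2 ^ N * ρ := le_mul_of_one_le_left hρ0 hN1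
      have e2 : (1 + (r : ℝ)) * 2 ^ N * ρ = 2 ^ N * ρ + r * (2 ^ N * ρ) := by ring
      rw [e2]
      linarith
    refine h5.trans ?_
    have e3 : (1 + (r : ℝ)) * 2 ^ N * ρ = ((1 + ((r : ℝ) + 1) ^ 2) * (1 + r)) *
        (2 ^ N / 2 ^ (Q + (N + Gn + N₁ + 1))) := by
      rw [hρ]
      ring
    rw [e3]
    refine (mul_le_mul_of_nonneg_right hN₁.le (by positivity)).trans (le_of_eq ?_)
    rw [← mul_div_assoc, ← pow_add, div_eq_div_iff (by positivity) (by positivity), one_mul,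
      ← pow_add]
    congr 1
    omega
  -- the own line
  have hof : ∀ ω ω', B₁ ω → B₁ ω' → Pool.KSAT.slam F w ω = Pool.KSAT.slam F w ω' →
      |Pool.NHZ.fvl c s (o 1) i (Pool.NHZ.vN (v (Z ω))) (G 0 (Pool.PB.ptr F J ω)) (Pool.GEN.bt F ω) -
        Pool.NHZ.fvl c s (o 1) i (Pool.NHZ.vN (v (Z ω))) (G 0 (Pool.PB.ptr F J ω')) (Pool.GEN.bt F ω')| ≤ 1 / 2 ^ (Q + Gn + 1) := by
    intro ω ω' hω hω' hsl'
    have hsl : Pool.KSAT.slam F (o 2) ω = Pool.KSAT.slam F (o 2) ω' := by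
      rw [Pool.PB.slam_coarse F hw2 hwJ ω, Pool.PB.slam_coarse F hw2 hwJ ω', hsl']
    refine (hown W (hB ω hω) (hB ω' hω') hsl i (v (Z ω)) (Mv := 2 ^ N) (by positivity) (hv ω hω)
      (hX ω hω)).trans ?_
    have hq0 := W.q0M
    have h3 : C₀ * 2 ^ (u + x) / 2 ^ q₀ + 1 / 2 ^ (MB + Q) ≤
        (C₀ + 1) * (2 ^ (u + x) / 2 ^ (MB + Q)) := by
      have h4 : C₀ * 2 ^ (u + x) / 2 ^ q₀ ≤ C₀ * (2 ^ (u + x) / 2 ^ (MB + Q)) := by
        rw [mul_div_assoc]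
        refine mul_le_mul_of_nonneg_left ?_ (by linarith)
        exact div_le_div_of_nonneg_left (by positivity) (by positivity)
          (pow_le_pow_right₀ (by norm_num) hq0)
      have h5 : (1 : ℝ) / 2 ^ (MB + Q) ≤ 2 ^ (u + x) / 2 ^ (MB + Q) :=
        div_le_div_of_nonneg_right (one_le_pow₀ (by norm_num)) (by positivity)
      linarith
    have h4 : (1 + (r : ℝ) * 2 ^ N) * (C₀ * 2 ^ (u + x) / 2 ^ q₀ + 1 / 2 ^ (MB + Q)) ≤
        1 / 2 ^ (Gn + 2) := by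
      have hN1 : (1 : ℝ) ≤ 2 ^ N := one_le_pow₀ (by norm_num)
      have h5 : 1 + (r : ℝ) * 2 ^ N ≤ (1 + r) * 2 ^ N := by linarith
      have h6 : (1 + (r : ℝ) * 2 ^ N) * (C₀ * 2 ^ (u + x) / 2 ^ q₀ + 1 / 2 ^ (MB + Q)) ≤
          (1 + r) * 2 ^ N * ((C₀ + 1) * (2 ^ (u + x) / 2 ^ (MB + Q))) :=
        mul_le_mul h5 h3 (by positivity) (by positivity)
      refine h6.trans ?_
      have e3 : (1 + (r : ℝ)) * 2 ^ N * ((C₀ + 1) * (2 ^ (u + x) / 2 ^ (MB + Q))) =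
          (C₀ + 1) * (1 + r) * (2 ^ N * 2 ^ (u + x) / 2 ^ (MB + Q)) := by ring
      rw [e3]
      refine (mul_le_mul_of_nonneg_right hN₂.le (by positivity)).trans ?_
      rw [← mul_div_assoc, ← pow_add, ← pow_add, div_le_div_iff₀ (by positivity) (by positivity),
        ← pow_add, one_mul]
      refine pow_le_pow_right₀ (by norm_num) ?_
      omega
    have h5 : (1 : ℝ) / 2 ^ (Gn + 2) + 1 / 2 ^ (Gn + 2) = 1 / 2 ^ (Gn + 1) := by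
      rw [pow_succ 2 (Gn + 1)]
      field_simp
      norm_num
    have h6 : (1 : ℝ) / 2 ^ (Gn + 2) + (1 + r * 2 ^ N) * (C₀ * 2 ^ (u + x) / 2 ^ q₀ +
        1 / 2 ^ (MB + Q)) ≤ 1 / 2 ^ (Gn + 1) := by linarith
    refine (div_le_div_of_nonneg_right h6 (by positivity)).trans (le_of_eq ?_)
    rw [div_div, ← pow_add]
    congr 2
    omega
  -- the label
  obtain ⟨Gt, hGt⟩ : ∃ Gt : Pool.GEN.PtT F → MvPolynomial (Option (Fin m)) ℝ, Gt = fun y =>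
    if hy : ∃ ω, B₁ ω ∧ Pool.PB.ptr F J ω = y then Pool.NHZ.LPl c s (o 1) i (Pool.NHZ.vN (v (Z hy.choose)))
      (G 0 (Pool.PB.ptr F J hy.choose)) (Pool.NHZ.fvl c s (o 1) i (Pool.NHZ.vN (v (Z hy.choose)))
        (G 0 (Pool.PB.ptr F J hy.choose)) (Pool.GEN.bt F hy.choose)) else 0 := ⟨_, rfl⟩
  obtain ⟨Hs, hHs⟩ : ∃ Hs : Pool.GEN.LnT F → MvPolynomial (Option (Fin m)) ℝ, Hs = fun y =>
    if hy : ∃ ω, B₁ ω ∧ Pool.KSAT.slam F w ω = y then Pool.NHZ.LPl c s (o 1) i (Pool.NHZ.vN (v (Z hy.choose)))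
      (G 0 (Pool.PB.ptr F J hy.choose)) (Pool.NHZ.fvl c s (o 1) i (Pool.NHZ.vN (v (Z hy.choose)))
        (G 0 (Pool.PB.ptr F J hy.choose)) (Pool.GEN.bt F hy.choose)) else 0 := ⟨_, rfl⟩
  have hGe : ∀ ω, B₁ ω → ∃ ω', B₁ ω' ∧ Pool.PB.ptr F J ω' = Pool.PB.ptr F J ω ∧ Gt (Pool.PB.ptr F J ω) =
      Pool.NHZ.LPl c s (o 1) i (Pool.NHZ.vN (v (Z ω))) (G 0 (Pool.PB.ptr F J ω)) (Pool.NHZ.fvl c s (o 1) i (Pool.NHZ.vN (v (Z ω)))
        (G 0 (Pool.PB.ptr F J ω)) (Pool.GEN.bt F ω')) := by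
    intro ω hω
    have hy : ∃ ω', B₁ ω' ∧ Pool.PB.ptr F J ω' = Pool.PB.ptr F J ω := ⟨ω, hω, rfl⟩
    obtain ⟨k1, k2⟩ := hy.choose_spec
    refine ⟨hy.choose, k1, k2, ?_⟩
    rw [hGt]
    beta_reduce
    rw [dif_pos hy, hZp _ _ k1 hω k2, k2]
  have hHe : ∀ ω, B₁ ω → ∃ ω', B₁ ω' ∧ Pool.KSAT.slam F w ω' = Pool.KSAT.slam F w ω ∧
      Hs (Pool.KSAT.slam F w ω) = Pool.NHZ.LPl c s (o 1) i (Pool.NHZ.vN (v (Z ω))) (G 0 (Pool.PB.ptr F J ω))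
        (Pool.NHZ.fvl c s (o 1) i (Pool.NHZ.vN (v (Z ω))) (G 0 (Pool.PB.ptr F J ω')) (Pool.GEN.bt F ω')) := by
    intro ω hω
    have hy : ∃ ω', B₁ ω' ∧ Pool.KSAT.slam F w ω' = Pool.KSAT.slam F w ω := ⟨ω, hω, rfl⟩
    obtain ⟨k1, k2⟩ := hy.choose_spec
    refine ⟨hy.choose, k1, k2, ?_⟩
    rw [hHs]
    beta_reduce
    rw [dif_pos hy, hZs _ _ k1 hω k2]
    refine Pool.NHZ.LPl_congr (fun j hj => ?_) _
    have hjr : j < r := lt_of_le_of_lt hj i.isLt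
    rw [W.cl0 _ (hB _ k1) j hjr, W.cl0 _ (hB _ hω) j hjr,
      Pool.PB.slam_coarse F (h02.trans hw2) hwJ hy.choose, Pool.PB.slam_coarse F (h02.trans hw2) hwJ ω, k2]
  have hsi : (0 : ℝ) < 2 ^ s i.val := by positivity
  refine ⟨Gt, Hs, ?_, ?_, ?_, ?_, ?_, ?_, ?_⟩
  · intro y
    rw [hGt]
    beta_reduce
    split_ifs with hy
    · exact Pool.NHZ.deg_LPl c s (o 1) i _ _ (fun j => W.dG 0 _ j) _
    · rw [totalDegree_zero]
      exact Nat.zero_le _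
  · intro y
    rw [hHs]
    beta_reduce
    split_ifs with hy
    · exact Pool.NHZ.deg_LPl c s (o 1) i _ _ (fun j => W.dG 0 _ j) _
    · rw [totalDegree_zero]
      exact Nat.zero_le _
  · intro y
    rw [hGt]
    beta_reduce
    split_ifs with hy
    · exact Pool.NHZ.dep_LPl c s (o 1) i _ _ (fun j => W.pG 0 _ j) _
    · intro b b' _ _
      rw [map_zero, map_zero]
  · intro y
    rw [hHs]
    beta_reduce
    split_ifs with hy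
    · exact Pool.NHZ.dep_LPl c s (o 1) i _ _ (fun j => W.pG 0 _ j) _
    · intro b b' _ _
      rw [map_zero, map_zero]
  · intro ω hω
    obtain ⟨ω', k1, k2, k3⟩ := hGe ω hω
    rw [k3]
    show |Pool.GEN.bt F ω (some (c i)) - _| ≤ _
    rw [Pool.NHZ.eval_LPl, abs_div, abs_of_pos hsi, abs_sub_comm]
    refine (div_le_div_of_nonneg_right (hrf ω ω' hω k1 k2.symm) hsi.le).trans ?_
    rw [div_div, ← pow_add]
    exact one_div_le_one_div_of_le (by positivity) (pow_le_pow_right₀ (by norm_num) (by omega))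
  · intro ω hω b _
    obtain ⟨ω', k1, k2, k3⟩ := hGe ω hω
    obtain ⟨ω'', k4, k5, k6⟩ := hHe ω hω
    rw [k3, k6]
    have e1 := Pool.NHZ.eval_LPl c s (o 1) i (Pool.NHZ.vN (v (Z ω))) (G 0 (Pool.PB.ptr F J ω))
      (Pool.NHZ.fvl c s (o 1) i (Pool.NHZ.vN (v (Z ω))) (G 0 (Pool.PB.ptr F J ω)) (Pool.GEN.bt F ω')) b
    have e2 := Pool.NHZ.eval_LPl c s (o 1) i (Pool.NHZ.vN (v (Z ω))) (G 0 (Pool.PB.ptr F J ω))
      (Pool.NHZ.fvl c s (o 1) i (Pool.NHZ.vN (v (Z ω))) (G 0 (Pool.PB.ptr F J ω'')) (Pool.GEN.bt F ω'')) b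
    have e3 : ∀ X Y : MvPolynomial (Option (Fin m)) ℝ, eval b X - eval b Y =
        (b (some (c i)) - eval b Y) - (b (some (c i)) - eval b X) := fun X Y => by ring
    rw [e3, e1, e2, ← sub_div, abs_div, abs_of_pos hsi]
    have h3 := hrf ω ω' hω k1 k2.symm
    have h4 := hof ω ω'' hω k4 k5.symm
    obtain ⟨f, hf⟩ : ∃ f, f = Pool.NHZ.fvl c s (o 1) i (Pool.NHZ.vN (v (Z ω))) (G 0 (Pool.PB.ptr F J ω)) (Pool.GEN.bt F ω) := ⟨_, rfl⟩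
    obtain ⟨f1, hf1⟩ : ∃ f1, f1 = Pool.NHZ.fvl c s (o 1) i (Pool.NHZ.vN (v (Z ω))) (G 0 (Pool.PB.ptr F J ω))
      (Pool.GEN.bt F ω') := ⟨_, rfl⟩
    obtain ⟨f2, hf2⟩ : ∃ f2, f2 = Pool.NHZ.fvl c s (o 1) i (Pool.NHZ.vN (v (Z ω))) (G 0 (Pool.PB.ptr F J ω''))
      (Pool.GEN.bt F ω'') := ⟨_, rfl⟩
    obtain ⟨fb, hfb⟩ : ∃ fb, fb = Pool.NHZ.fvl c s (o 1) i (Pool.NHZ.vN (v (Z ω))) (G 0 (Pool.PB.ptr F J ω)) b := ⟨_, rfl⟩
    rw [← hf, ← hf1] at h3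
    rw [← hf, ← hf2] at h4
    rw [← hf1, ← hf2, ← hfb]
    have h5 : |fb - f2 - (fb - f1)| ≤ 1 / 2 ^ (Q + Gn) := by
      have e4 : fb - f2 - (fb - f1) = (f1 - f) + (f - f2) := by ring
      rw [e4]
      refine (abs_add_le _ _).trans ((add_le_add h3 h4).trans (le_of_eq ?_))
      rw [pow_succ]
      field_simp
      norm_num
    refine (div_le_div_of_nonneg_right h5 hsi.le).trans (le_of_eq ?_)
    rw [div_div, ← pow_add]
    congr 2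
    omega
  · intro ω hω b hb l hl
    obtain ⟨ω', k1, k2, k3⟩ := hGe ω hω
    rw [k3]
    have h3 := Pool.W.NHZ.lip_LPl (e := e) (Q := Q) (x := x) (s := s) (r := r) (i := i.val) (N := N) (Gn := Gn)
      (v := Pool.NHZ.vN (v (Z ω))) (P := G 0 (Pool.PB.ptr F J ω)) (g' := g') (w := o 1) (b := b) (l := l)
      (W.hc.mono (Set.Iio_subset_Iio (by have := i.isLt; omega))) (fun j => W.pG 0 _ j)
      (Pool.NHZ.vN_le (by positivity) (hv ω hω)) (fun j hj => hg1 j (lt_of_le_of_lt hj i.isLt))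
      (fun j hj => hg2 j (lt_of_le_of_lt hj i.isLt))
      (Pool.NHZ.fvl c s (o 1) i (Pool.NHZ.vN (v (Z ω))) (G 0 (Pool.PB.ptr F J ω)) (Pool.GEN.bt F ω')) (fun j hj k hk => by
        have h4 := W.rad0.lip ω (hB ω hω) j (by have := i.isLt; omega) b
          (Pool.GEN.NBx.mono hb hw2 hj) k hk
        beta_reduce at h4
        rw [Pool.NHZ.pd_Gno] at h4
        rw [hg']
        exact h4) i.isLt hl
    rw [hg'] at h3
    exact h3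

end Pool.W.NHZ
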