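import Pool.Agent.H42.D2.Hyi
import Pool.Agent.H31.W3.H42.D2.Hyh
import Pool.Agent.H31.W.H24.D2.Vis
import Pool.Agent.H31.W.H46.D2.NoLb
import Pool.Agent.H31.W1.H2.GEN.ChT
import Pool.Agent.H31.W1.H80.GEN.Chn

/-!
# The velocities are in no closed hyperplane: class theorem over the curved frame

`hyp_frm`: `NoHyp` for the code of the velocities and a record which is read from the point and from
the line with the window of the ball.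
-/

set_option autoImplicit false

namespace Pool.W.NHZ

open Pool.NHZ

open Finset Real MvPolynomial
open Pool.Agent.H49.Ent Pool.Agent.H32.Dense Pool.STK Pool.KA Pool.KSAT Pool.K2S Pool.PB
open Pool.S6C Pool.GEN Pool.D2R Pool.D2Z Pool.D2F Pool.D2G30 Pool.ISO Pool.CHT Pool.CHX Pool.V1E
open Pool.D2Con
open Pool.PB.Trl (rt rt_mem t_rt)
open Pool.NLB46 (Lab lab_ev)
open Pool.LBT (ThrOf)
open Pool.JVE (pe_sum)

/-- **The velocities are natural.** -/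
theorem xe_bd (D : ℕ) : ∃ C : ℕ, ∀ {m J : ℕ} {F : Pool.KA.Fam m J} {c : ℕ → Fin m}
    {r n M ar MB q₀ Q x u p e : ℕ} {s : ℕ → ℕ} {qe : Fin r → ℕ} {o : ℕ → ℕ}
    {z g gc gT g₀ : ℕ → ℕ → ℕ} {B : F.Ω → Prop}
    {G T : ℕ → Pool.GEN.PtT F → ℕ → MvPolynomial (Option (Fin m)) ℝ}
    {H TH : ℕ → Pool.GEN.LnT F → ℕ → MvPolynomial (Option (Fin m)) ℝ}
    {Ht : Pool.GEN.LnT F → MvPolynomial (Option (Fin m)) ℝ},
    Pool.W.V1E.Wdat F c r D n M ar MB q₀ Q x u p e s qe o z g gc gT g₀ B G T H TH Ht →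
    ∀ {ω : F.Ω}, B ω → ∀ j, |Pool.V1E.Xe r qe (Pool.V1E.eL c s r (o 1) qe (Pool.V1E.frH F r q₀ (H 0) (Pool.KSAT.slam F (o 1) ω))
      (Pool.KSAT.slam F (o 1) ω)) j| ≤ 2 ^ (C + u + x) := by
  obtain ⟨C₀, hC₀, hhn⟩ := Pool.V1E.hL_near D
  obtain ⟨C, hC⟩ := pow_unbounded_of_one_lt (C₀ + 1) (one_lt_two (α := ℝ))
  refine ⟨C, ?_⟩
  intro m J F c r n M ar MB q₀ Q x u p e s qe o z g gc gT g₀ B G T H TH Ht W ω hω j
  have h1J : o 1 ≤ J := by have := W.oJ; have := W.o3; have := W.o2; omega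
  obtain ⟨L, hL'⟩ : ∃ L, L = Pool.KSAT.slam F (o 1) ω := ⟨_, rfl⟩
  obtain ⟨P, hP⟩ : ∃ P, P = Pool.V1E.frH F r q₀ (H 0) L := ⟨_, rfl⟩
  rw [← hL', ← hP]
  refine Fin.cases ?_ (fun j => ?_) j
  · show |(1 : ℝ)| ≤ _
    rw [abs_one]
    exact one_le_pow₀ (by norm_num)
  have hcoL : Pool.D2R.co q₀ L = Pool.KSAT.slam F (o 0) ω := by
    have h2 := Pool.D2R.co_slam F (w := o 0) (a := o 1) (by have := W.o1; omega) h1J ω
    rw [hL']
    rwa [W.o1, Nat.add_sub_cancel_left, ← W.o1] at h2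
  have h3 := (hhn (F := F) (c := c) (s := s) (d := r) (wb := o 0) (q₀ := q₀) (H₀ := H 0)
    (L := L) (M := 2 ^ u / 2 ^ g₀ 0 j) (i := j) (W.dH 0 _ _) (by
      rw [hcoL]
      exact W.own0 ω hω j j.isLt) 0 ⟨le_rfl, zero_le_one⟩).1
  rw [← W.o1, ← hP] at h3
  obtain ⟨f, hf⟩ : ∃ f, f = (Polynomial.derivative (Pool.V1E.hL c s r (o 1) P L (some j))).eval 0 :=
    ⟨_, rfl⟩
  rw [← hf] at h3
  have h4 : C₀ * (2 ^ s j.val * (2 ^ u / 2 ^ g₀ 0 j) / 2 ^ q₀) ≤ C₀ * 2 ^ (u + x) := by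
    refine mul_le_mul_of_nonneg_left ?_ (by linarith)
    rw [← mul_div_assoc, div_div, ← pow_add, ← pow_add, div_le_iff₀ (by positivity), ← pow_add]
    refine pow_le_pow_right₀ (by norm_num) ?_
    have := W.n0 j j.isLt
    omega
  show |((⌊2 ^ qe j * (Polynomial.derivative (Pool.V1E.hL c s r (o 1) P L (some j))).eval 0⌋ : ℤ) : ℝ) /
    2 ^ qe j| ≤ _
  rw [← hf]
  have h5 := Int.floor_le ((2 : ℝ) ^ qe j * f)
  have h6 := (Int.lt_floor_add_one ((2 : ℝ) ^ qe j * f)).le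
  have h7 : (1 : ℝ) ≤ 2 ^ qe j := one_le_pow₀ (by norm_num)
  have h8 : |((⌊2 ^ qe j * f⌋ : ℤ) : ℝ) / 2 ^ qe j - f| ≤ 1 := by
    have e2 : ((⌊2 ^ qe j * f⌋ : ℤ) : ℝ) / 2 ^ qe j - f =
        (((⌊2 ^ qe j * f⌋ : ℤ) : ℝ) - 2 ^ qe j * f) / 2 ^ qe j := by
      field_simp
    rw [e2, abs_div, abs_of_pos (by linarith : (0 : ℝ) < 2 ^ qe j), div_le_one (by linarith)]
    refine le_trans ?_ h7
    rw [abs_le]
    constructor <;> linarith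
  have h9 := abs_add_le (((⌊2 ^ qe j * f⌋ : ℤ) : ℝ) / 2 ^ qe j - f) f
  rw [sub_add_cancel] at h9
  have h10 : (1 : ℝ) ≤ 2 ^ (u + x) := one_le_pow₀ (by norm_num)
  have h11 : (C₀ + 1) * 2 ^ (u + x) ≤ 2 ^ C * 2 ^ (u + x) :=
    mul_le_mul_of_nonneg_right hC.le (by positivity)
  rw [← pow_add] at h11
  have e3 : C + u + x = C + (u + x) := by ring
  rw [e3]
  linarith


/-- **The velocities are in no closed hyperplane.** -/
theorem hyp_frm (D r : ℕ) : ∃ C : ℕ, ∀ {m : ℕ} {θ : ℝ} {S : Pool.PB.PCl m}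
    {P : List (Fin m) × Fin m → ℝ → ℝ → ℝ} (_ : Pool.LBT.ThrOf (Pool.W.CHT.chsys m θ) S P) (c : ℕ → Fin m) (a : ℚ)
    (e h : ℝ), 0 ≤ a → a ≤ 1 → e < θ * a → 0 < h → (∀ l < r, Pool.CHT.bet P c l a a + h ≤ 1) →
    ∃ δ : ℝ, 0 < δ ∧ Pool.S6C.Bas S (fun J F A => ∀ {n M ar MB q₀ Q x u p e₀ : ℕ} {s : ℕ → ℕ}
      {qe : Fin r → ℕ} {o : ℕ → ℕ} {z g gc gT g₀ : ℕ → ℕ → ℕ} {B : F.Ω → Prop}
      {G T : ℕ → Pool.GEN.PtT F → ℕ → MvPolynomial (Option (Fin m)) ℝ}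
      {H TH : ℕ → Pool.GEN.LnT F → ℕ → MvPolynomial (Option (Fin m)) ℝ}
      {Ht : Pool.GEN.LnT F → MvPolynomial (Option (Fin m)) ℝ},
      Pool.W.V1E.Wdat F c r D n M ar MB q₀ Q x u p e₀ s qe o z g gc gT g₀ B G T H TH Ht →
      ∀ {Gn N₀ w : ℕ}, N₀ = C * (u + x + Gn + 1) → o 2 ≤ w → w ≤ ⌊(a : ℝ) * J⌋₊ → N₀ ≤ MB →
      e₀ + N₀ ≤ ⌊e * J⌋₊ → (∀ l < r, e₀ + s l + Q + N₀ ≤ J) →
      (∀ l < r, ⌊(Pool.CHT.bet P c l a a + h) * J⌋₊ + w ≤ s l + Q + Gn + ⌊(a : ℝ) * J⌋₊) →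
      ∀ {q : F.Ω → ℝ} {Mq : ℝ}, Pool.STK.IsLaw q → 0 ≤ Mq → (∀ ω, 0 < q ω → A ω ∧ B ω) →
      (∀ ω, q ω * Pool.K2S.Pe F.p A ≤ Mq * F.p ω) →
      ∀ {ζ : Type} {Z : F.Ω → ζ}, Pool.Agent.H49.Ent.Det q (fun ω => Pool.PB.ptr F J ω) Z → Pool.Agent.H49.Ent.Det q (Pool.KSAT.slam F w) Z →
      Pool.D2Con.NoHyp q (fun ω => Pool.V1E.Xe r qe (Pool.V1E.eL c s r (o 1) qe (Pool.V1E.frH F r q₀ (H 0) (Pool.KSAT.slam F (o 1) ω))
        (Pool.KSAT.slam F (o 1) ω))) Z (1 / 2 ^ N₀) (r * (Mq * Real.exp (-(δ * J))))) := by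
  classical
  obtain ⟨C₁, hlab⟩ := Pool.W.NHZ.frm_lab D r
  obtain ⟨C₂, hxb⟩ := Pool.W.NHZ.xe_bd D
  obtain ⟨C, hCd⟩ : ∃ C, C = C₁ + (r + 1) * (C₂ + r + 5) + 8 := ⟨_, rfl⟩
  refine ⟨C, ?_⟩
  intro m θ S P hP c a e h ha0 ha he hh h1
  choose δl hδl τl hτl Jl hvl using fun l : Fin r =>
    Pool.W.NLB46.lab_ev hP c l (D + 1) a a e h ha0 le_rfl ha he hh (h1 l l.isLt)
  choose τp hτp Jp hvp using fun l : Fin r =>
    Pool.W.VIS24.pos_thr hP c l a a e h ha0 le_rfl ha he hh (h1 l l.isLt)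
  obtain ⟨δ, hδ, hδle⟩ := Pool.D2Con.fin_pos δl hδl
  obtain ⟨τ, hτ, hτle⟩ := Pool.D2Con.fin_pos (fun l => min (τl l) (τp l)) fun l => lt_min (hτl l) (hτp l)
  refine ⟨δ, hδ, τ, hτ, max (Finset.univ.sup Jl) (Finset.univ.sup Jp), ?_⟩
  intro J hJ F A hA n M ar MB q₀ Q x u p e₀ s qe o z g gc gT g₀ B G T H TH Ht W Gn N₀ w hN₀ hw2 hoa
    hNM heN hJN hbN q Mq hq hMq hqA hqM ζ Z hZp hZs
  have hJl : ∀ l, J ≥ Jl l := fun l =>
    (Finset.le_sup (Finset.mem_univ l)).trans ((le_max_left _ _).trans hJ)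
  have hJp : ∀ l, J ≥ Jp l := fun l =>
    (Finset.le_sup (Finset.mem_univ l)).trans ((le_max_right _ _).trans hJ)
  have hJ0 : (0 : ℝ) ≤ J := Nat.cast_nonneg J
  have hwJ : w ≤ J := hoa.trans (Nat.floor_le_of_le (by
    have h3 : (a : ℝ) ≤ 1 := by exact_mod_cast ha
    nlinarith))
  -- the numbers
  obtain ⟨k, hk⟩ : ∃ k, k = C₂ + u + x := ⟨_, rfl⟩
  obtain ⟨n₁, hn₁⟩ : ∃ n₁, n₁ = k + r + Gn + 3 := ⟨_, rfl⟩
  obtain ⟨N, hN⟩ : ∃ N, N = r * n₁ := ⟨_, rfl⟩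
  have hNle : N ≤ (r + 1) * (C₂ + r + 5) * (u + x + Gn + 1) := by
    rw [hN, hn₁, hk]
    have e1 : r * (C₂ + u + x + r + Gn + 3) ≤ (r + 1) * (C₂ + u + x + r + Gn + 3) :=
      Nat.mul_le_mul_right _ (Nat.le_succ r)
    refine e1.trans ?_
    rw [mul_assoc]
    refine Nat.mul_le_mul_left _ ?_
    nlinarith [Nat.zero_le (C₂ * u), Nat.zero_le (C₂ * x), Nat.zero_le (C₂ * Gn),
      Nat.zero_le (r * u), Nat.zero_le (r * x), Nat.zero_le (r * Gn)]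
  have hN₀a : C₁ * (u + x + 1) + N + Gn + 8 ≤ N₀ := by
    rw [hN₀, hCd]
    have e1 : C₁ * (u + x + 1) ≤ C₁ * (u + x + Gn + 1) := Nat.mul_le_mul_left _ (by omega)
    have e2 : Gn + 8 ≤ 8 * (u + x + Gn + 1) := by omega
    calc C₁ * (u + x + 1) + N + Gn + 8 ≤ C₁ * (u + x + Gn + 1) +
          (r + 1) * (C₂ + r + 5) * (u + x + Gn + 1) + 8 * (u + x + Gn + 1) := by omega
      _ = _ := by ring
  have hN₀b : N + Gn + 3 * x + r ≤ N₀ := by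
    rw [hN₀, hCd]
    have e2 : Gn + 3 * x + r ≤ (8 + r) * (u + x + Gn + 1) := by
      nlinarith [Nat.zero_le (r * u), Nat.zero_le (r * x), Nat.zero_le (r * Gn)]
    have e3 : N + r * (u + x + Gn + 1) ≤ (r + 1) * (C₂ + r + 5) * (u + x + Gn + 1) := by
      rw [hN, hn₁, hk]
      have e1 : r * (C₂ + u + x + r + Gn + 3) + r * (u + x + Gn + 1) =
          r * (C₂ + u + x + r + Gn + 3 + (u + x + Gn + 1)) := by ring
      rw [e1]
      have e4 : r * (C₂ + u + x + r + Gn + 3 + (u + x + Gn + 1)) ≤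
          (r + 1) * (C₂ + u + x + r + Gn + 3 + (u + x + Gn + 1)) :=
        Nat.mul_le_mul_right _ (Nat.le_succ r)
      refine e4.trans ?_
      rw [mul_assoc]
      refine Nat.mul_le_mul_left _ ?_
      nlinarith [Nat.zero_le (C₂ * u), Nat.zero_le (C₂ * x), Nat.zero_le (C₂ * Gn),
        Nat.zero_le (r * u), Nat.zero_le (r * x), Nat.zero_le (r * Gn)]
    calc N + Gn + 3 * x + r ≤ N + r * (u + x + Gn + 1) + 8 * (u + x + Gn + 1) := by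
          nlinarith [e2]
      _ ≤ (r + 1) * (C₂ + r + 5) * (u + x + Gn + 1) + 8 * (u + x + Gn + 1) := by omega
      _ ≤ _ := by nlinarith [Nat.zero_le (C₁ * (u + x + Gn + 1))]
  -- the pivots
  obtain ⟨ν, hν⟩ : ∃ ν : ℝ, ν = 1 / 2 ^ n₁ := ⟨_, rfl⟩
  have hν0 : 0 < ν := by rw [hν]; positivity
  have hνr : 1 / ν ^ r = 2 ^ N := by
    rw [hν, one_div_pow, one_div_one_div, ← pow_mul, hN, mul_comm]
  have hrY : (r : ℝ) * (ν * 2 ^ k) ≤ 1 / 2 ^ (Gn + 3) := by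
    have h2 : (r : ℝ) ≤ 2 ^ r := by exact_mod_cast (Nat.lt_two_pow_self (n := r)).le
    have e1 : ν * 2 ^ k = 1 / 2 ^ (r + Gn + 3) := by
      rw [hν, hn₁, div_mul_eq_mul_div, one_mul, div_eq_div_iff (by positivity) (by positivity),
        one_mul, ← pow_add]
      congr 1
      omega
    rw [e1]
    refine (mul_le_mul_of_nonneg_right h2 (by positivity)).trans (le_of_eq ?_)
    rw [mul_one_div, div_eq_div_iff (by positivity) (by positivity), one_mul, ← pow_add]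
    congr 1
  have hη : (1 : ℝ) / 2 ^ N₀ / ν ^ r ≤ 1 / 2 ^ (Gn + 3) := by
    rw [div_eq_mul_one_div (1 / 2 ^ N₀ : ℝ), hνr, div_mul_eq_mul_div, one_mul,
      div_le_div_iff₀ (by positivity) (by positivity), one_mul, ← pow_add]
    refine pow_le_pow_right₀ (by norm_num) ?_
    omega
  have hsm : (1 : ℝ) / 2 ^ (Gn + 3) ≤ 1 / 8 := by
    refine one_div_le_one_div_of_le (by norm_num) ?_
    have : (2 : ℝ) ^ 3 ≤ 2 ^ (Gn + 3) := pow_le_pow_right₀ (by norm_num) (by omega)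
    linarith
  have hN0s : (1 : ℝ) / 2 ^ N₀ ≤ 1 / 2 := by
    refine one_div_le_one_div_of_le (by norm_num) ?_
    have : (2 : ℝ) ^ 1 ≤ 2 ^ N₀ := pow_le_pow_right₀ (by norm_num) (by omega)
    linarith
  refine Pool.D2Con.noHyp_piv hq (Y := 2 ^ k) (ν := ν) (ε := 1 / 2 ^ (Gn + 2)) (fun ω _ => rfl)
    (fun ω hω j => by
      rw [hk]
      exact hxb W (hqA ω hω).2 j) hν0 ?_ (by positivity) ?_ ?_ fun l v => ?_
  · rw [hν]
    exact (div_le_one (by positivity)).2 (one_le_pow₀ (by norm_num))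
  · linarith
  · have e1 : (1 : ℝ) / 2 ^ (Gn + 3) + 1 / 2 ^ (Gn + 3) = 1 / 2 ^ (Gn + 2) := by
      rw [pow_succ 2 (Gn + 2)]
      field_simp
      norm_num
    linarith
  · have hev := hvl l J (hJl l) F A (S.mono ((hτle l).trans (min_le_left _ _)) hA)
    have hA0 := hvp l J (hJp l) F A (S.mono ((hτle l).trans (min_le_right _ _)) hA)
    obtain ⟨E, hE⟩ : ∃ E : F.Ω → Prop, E = fun ω => (∀ j, |v (Z ω) j| ≤ 1 / ν ^ r) ∧
      |Pool.V1E.Xe r qe (Pool.V1E.eL c s r (o 1) qe (Pool.V1E.frH F r q₀ (H 0) (Pool.KSAT.slam F (o 1) ω)) (Pool.KSAT.slam F (o 1) ω)) l.succ -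
        ∑ j, (if j < l.succ then v (Z ω) j * Pool.V1E.Xe r qe (Pool.V1E.eL c s r (o 1) qe
          (Pool.V1E.frH F r q₀ (H 0) (Pool.KSAT.slam F (o 1) ω)) (Pool.KSAT.slam F (o 1) ω)) j else 0)| ≤
        1 / 2 ^ (Gn + 2) := ⟨_, rfl⟩
    show Pool.Agent.H49.Ent.law q _ True ≤ _
    rw [← hE]
    refine (Pool.NHZ.law_le_mass hq.nonneg (X := Real.exp (-(δl l * J))) hA0 hMq hqM
      (fun ω => F.isLaw.nonneg ω) ?_).trans (mul_le_mul_of_nonneg_left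
        (Real.exp_le_exp.mpr (by
          have := mul_le_mul_of_nonneg_right (hδle l) hJ0
          linarith only [this])) hMq)
    obtain ⟨B₁, hB₁⟩ : ∃ B₁ : F.Ω → Prop, B₁ = fun ω => 0 < q ω ∧ E ω := ⟨_, rfl⟩
    rw [← hB₁]
    have hBq : ∀ ω, B₁ ω → 0 < q ω ∧ E ω := fun ω hω => by
      rw [hB₁] at hω
      exact hω
    have hBB : Pool.K2S.Sub B₁ B := fun ω hω => (hqA ω (hBq ω hω).1).2
    obtain ⟨Gt, Ht', hL⟩ := hlab W hBB hw2 hwJ (Z := Z) (fun ω ω' k1 k2 k3 =>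
      hZp ω ω' (hBq ω k1).1 (hBq ω' k2).1 k3) (fun ω ω' k1 k2 k3 =>
      hZs ω ω' (hBq ω k1).1 (hBq ω' k2).1 k3) l v (N := N) (Gn := Gn) (fun ω hω j => by
        have h3 := (hBq ω hω).2
        rw [hE] at h3
        rw [← hνr]
        exact h3.1 j) (fun ω hω => by
        have h3 := (hBq ω hω).2
        rw [hE] at h3
        exact h3.2) (by omega) (fun l hl => by
        have := hJN l hl
        omega)
    have hch := Pool.W.NHZ.frm_ch W (i := l) (e' := e₀ + (N + Gn + 3 * x + r)) l.isLt.le hBB (by omega) hw2 hwJ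
    refine hev w w (e₀ + (N + Gn + 3 * x + r)) (s l + Q + Gn) (fun _ => D)
      (fun l => g 0 l + (o 2 - o 0)) _ _ Gt Ht' le_rfl hoa hoa (by omega)
      (fun _ => Nat.le_succ D) (fun j hj => ?_) ?_ (hbN l l.isLt) B₁
      (fun ω hω => (hqA ω (hBq ω hω).1).1) hch hL
    · have h3 := hJN j (hj.trans l.isLt)
      have h4 := W.n2d j (hj.trans l.isLt)
      show g 0 j + (o 2 - o 0) ≤ J
      omega
    · have h3 := hJN l l.isLt
      omega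

end Pool.W.NHZ
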