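import Pool.Agent.H42.D2.Nhf
import Pool.Agent.H31.W3.H42.D2.Nhz
import Pool.Agent.H31.W3.H73.D2.Tmb
import Pool.Agent.H31.W.H23.D2.Bwj
import Pool.Agent.H31.W1.H2.GEN.ChT
import Pool.Agent.H31.W1.H23.D2.Bln
import Pool.Agent.H31.W1.H80.GEN.Chn

/-!
# The hypothesis `NhF`: the velocities are in no hyperplane, frame and ball in a chain

`nhF_cls`: in a class with thresholds and full time, for the windows `WF` with a deeper chain window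
`o 4`.
-/

set_option autoImplicit false

namespace Pool.W.NHZ

open Pool.NHZ

open Finset Real MvPolynomial
open Pool.Agent.H49.Ent Pool.Agent.H32.Dense Pool.STK Pool.KA Pool.KSAT Pool.K2S Pool.PB
open Pool.S6C Pool.GEN Pool.D2R Pool.D2Z Pool.D2F Pool.D2G30 Pool.ISO Pool.CHT Pool.CHX Pool.V1E
open Pool.D2Con Pool.RCD
open Pool.LBT (ThrOf)


/-- **The hypothesis `NhF`**. -/
theorem nhF_cls (D r : ℕ) (hr : 1 ≤ r) : ∃ C' : ℝ, 1 ≤ C' ∧ ∀ {m Dr N₂ : ℕ} {S : Pool.PB.PCl m}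
    {P : List (Fin m) × Fin m → ℝ → ℝ → ℝ} {θ : ℝ} {c : ℕ → Fin m} {C a Eb ε₀ η₀ ζ mb : ℝ}
    {Pt : ℝ → ℝ → ℝ} {o : ℕ → ℝ} {lv be : ℕ → ℕ → ℝ} {κ : ℝ} {qf : ℕ → Fin r → ℕ} {δ : ℝ}
    {aq : ℚ} {e h gn : ℝ}, 4 ≤ N₂ → Pool.LBT.ThrOf (Pool.W.CHT.chsys m θ) S P →
    (∀ ψ : ℝ, 0 < ψ → Pool.S6C.Bas S (fun J F A => 0 < Pool.K2S.Pe F.p A ∧ (J : ℝ) * Real.log 2 - ψ * J ≤
      Pool.Agent.H49.Ent.CH (Pool.Agent.H49.Ent.cond F.p A True) F.T (fun ω => (F.l ω, F.Z ω)))) →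
    Pool.NHZ.NhNF r P c θ C Eb η₀ ζ δ C' o lv aq e h gn →
    Pool.W.V1E.NhF S c r D Dr N₂ C a Eb ε₀ η₀ ζ mb Pt o lv be κ qf δ := by
  obtain ⟨C₁, hnh⟩ := Pool.W.NHZ.nh_cls D r hr
  refine ⟨8 * C₁ + 32, by
    have : (0 : ℝ) ≤ C₁ := Nat.cast_nonneg _
    linarith, ?_⟩
  intro m Dr N₂ S P θ c C a Eb ε₀ η₀ ζ mb Pt o lv be κ qf δ aq e h gn hN₂ hP htm N
  obtain ⟨X, hX⟩ : ∃ X : ℝ, X = C * (ζ + η₀) := ⟨_, rfl⟩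
  have No24 := N.o34
  have Nsm := N.sm
  have Ne2 := N.e2
  have Ntop := N.top
  rw [← hX] at Nsm Ne2
  simp only [← hX] at Ntop
  have hC := N.C1
  have hη := N.η0
  have hζ := N.ζ0
  have hgn := N.gn0
  have hC₁ : (0 : ℝ) ≤ C₁ := Nat.cast_nonneg _
  have hX0 : 0 ≤ X := by rw [hX]; positivity
  have ho1 := N.o0
  have ho12 := N.o03
  obtain ⟨k, hk⟩ : ∃ k : ℝ, k = 22 * C₁ + 60 := ⟨_, rfl⟩
  have ho1q := N.o4a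
  have ho24 : o 3 < o 4 := by
    have h3 : 0 ≤ (C + 1) * η₀ := mul_nonneg (by linarith) hη
    linarith
  have haq0 : (0 : ℝ) ≤ aq := by linarith
  obtain ⟨ψ, hψ, hcl⟩ := hnh hP c aq e h 1 δ (by exact_mod_cast haq0) (by exact_mod_cast N.a1)
    N.ea N.h0 N.b1
    one_pos N.δ0
  obtain ⟨J₁, hJ₁⟩ := Pool.V1E.lin_lt No24 k
  obtain ⟨J₂, hJ₂⟩ := Pool.V1E.lin_lt Nsm k
  obtain ⟨J₃, hJ₃⟩ := Pool.V1E.lin_lt Ne2 k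
  obtain ⟨J₄, hJ₄⟩ := Pool.V1E.lin_fam (n := r) (A := fun l => Eb + 2 * η₀ + lv 0 l + (o 3 - o 0) +
    (8 * C₁ + 32) * (X + gn)) (B := fun _ => 1) (fun l hl => Ntop l hl) k
  obtain ⟨J₅, hJ₅⟩ := Pool.V1E.lin_fam (n := r) (A := fun l => Pool.CHT.bet P c l aq aq + h + o 4)
    (B := fun l => lv 0 l + (o 3 - o 0) + gn + aq) N.gain k
  obtain ⟨J₆, hJ₆⟩ := Pool.V1E.lin_lt (show (0 : ℝ) < o 3 - o 0 by linarith) k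
  refine Pool.S6C.Bas.mono (max (max (max J₁ J₂) (max J₃ J₄)) (max J₅ J₆)) (hcl.and (htm ψ hψ)) ?_
  rintro J hJ F A ⟨hcl, hA, hT⟩ b z gc gT g₀ G H T TH Gt Ht W V V' v v' hv hv'
  have hWB := W.wb
  have hz04 := W.zz 2 (by omega) 4 hN₂ N.o24
  have j1 := hJ₁ J (by omega)
  have j2 := hJ₂ J (by omega)
  have j3 := hJ₃ J (by omega)
  have j4 := hJ₄ J (by omega)
  have j5 := hJ₅ J (by omega)
  have j6 := hJ₆ J (by omega)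
  clear hJ₁ hJ₂ hJ₃ hJ₄ hJ₅ hJ₆
  have hJ0 : (0 : ℝ) ≤ J := Nat.cast_nonneg J
  have mulJ : ∀ {x y : ℝ}, x ≤ y → x * J ≤ y * J := fun h => mul_le_mul_of_nonneg_right h hJ0
  have hqA : ∀ ω, 0 < Pool.Agent.H49.Ent.cond F.p A True ω → A ω := fun ω hω =>
    of_eq_true ((Pool.Agent.H49.Ent.cond_pos_iff F.isLaw.nonneg A True ω).1 hω).2
  have hE := N.E0
  have ho0 := (hWB.ho 2 (by omega)).1
  have Wd := W.wd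
  have l01 : ⌊o 2 * J⌋₊ ≤ ⌊o 0 * J⌋₊ := by
    have h3 := Wd.o1
    have h4 : ⌊o 0 * J⌋₊ = ⌊o 2 * J⌋₊ + (⌊o 0 * J⌋₊ - ⌊o 2 * J⌋₊) := h3
    omega
  have f0 := Pool.V1E.flo (mul_nonneg ho0 hJ0)
  have f1 := Pool.V1E.flo (mul_nonneg ho1 hJ0)
  have f2 := Pool.V1E.flo (mul_nonneg (ho1.trans ho12.le) hJ0)
  have f4 := Pool.V1E.flo (mul_nonneg ((ho1.trans ho12.le).trans ho24.le) hJ0)
  have fa := Pool.V1E.flo (mul_nonneg haq0 hJ0)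
  have fg := Pool.V1E.flo (mul_nonneg hgn hJ0)
  have fc := Pool.V1E.flo (mul_nonneg (by linarith : (0 : ℝ) ≤ C) (mul_nonneg hη hJ0))
  have l12 : ⌊o 0 * J⌋₊ ≤ ⌊o 3 * J⌋₊ := Nat.floor_le_floor (mulJ ho12.le)
  have l24 : ⌊o 3 * J⌋₊ ≤ ⌊o 4 * J⌋₊ := Nat.floor_le_floor (mulJ ho24.le)
  have l4a : ⌊o 4 * J⌋₊ ≤ ⌊(aq : ℝ) * J⌋₊ := Nat.floor_le_floor (mulJ N.o4a)
  have laJ : ⌊(aq : ℝ) * J⌋₊ ≤ J := Nat.floor_le_of_le (by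
    have h3 := mulJ N.a1
    linarith)
  have fe := Pool.V1E.flo (mul_nonneg (by linarith : (0 : ℝ) ≤ Eb + 2 * η₀) hJ0)
  have hg4 := fun l (hl : l < r) => (hWB.g_num (k := 4) (l := l) hN₂ hl.le).2.2.1
  have hg0 := fun l (hl : l < r) => (hWB.g_num (k := 2) (l := l) (by omega) hl.le).1
  have c2 := (hWB.ev 3 (by omega)).cls
  have c4 := (hWB.ev 4 hN₂).cls
  have p4 := (hWB.ev 4 hN₂).ball.pos
  have b4 := hWB.bal 2 (by omega) 4 hN₂ 4 hN₂ (l01.trans (l12.trans l24)) hz04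
  obtain ⟨Q, hQ⟩ : ∃ Q : ℕ, Q = ⌊o 3 * J⌋₊ - ⌊o 0 * J⌋₊ := ⟨_, rfl⟩
  obtain ⟨q₀, hq₀⟩ : ∃ q₀ : ℕ, q₀ = ⌊o 0 * J⌋₊ - ⌊o 2 * J⌋₊ := ⟨_, rfl⟩
  obtain ⟨x, hx⟩ : ∃ x : ℕ, x = ⌊(2 * (ζ + 3 * (C * η₀)) + η₀) * J⌋₊ + 20 := ⟨_, rfl⟩
  obtain ⟨u, hu⟩ : ∃ u : ℕ, u = ⌊C * (η₀ * J)⌋₊ + 1 := ⟨_, rfl⟩
  obtain ⟨e₀, he⟩ : ∃ e₀ : ℕ, e₀ = ⌊(Eb + 2 * η₀) * J⌋₊ := ⟨_, rfl⟩
  obtain ⟨s, hs⟩ : ∃ s : ℕ → ℕ, s = fun l => ⌊lv 0 l * J⌋₊ := ⟨_, rfl⟩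
  obtain ⟨uB, huB⟩ : ∃ uB : ℕ, uB = ⌊C * (η₀ * J)⌋₊ := ⟨_, rfl⟩
  rw [← hs] at Wd ⊢
  rw [← hQ, ← hq₀] at Wd ⊢
  rw [← hx, ← hu, ← he] at Wd
  rw [← he] at fe
  rw [← huB] at fc b4
  have hsl : ∀ l < r, (s l : ℝ) ≤ lv 0 l * J ∧ lv 0 l * J - 1 ≤ s l := fun l hl => by
    rw [hs]
    exact Pool.V1E.flo (mul_nonneg (N.l0 l hl) hJ0)
  have hQr : (Q : ℝ) = ⌊o 3 * J⌋₊ - ⌊o 0 * J⌋₊ := by rw [hQ, Nat.cast_sub l12]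
  have hQl : (o 3 - o 0) * J - 1 ≤ Q := by rw [hQr]; linarith [f1.2, f2.2, f1.1, f2.1]
  have hQu : (Q : ℝ) ≤ (o 3 - o 0) * J + 1 := by rw [hQr]; linarith [f1.2, f2.2, f1.1, f2.1]
  have huu : (u : ℝ) + x + 1 ≤ 8 * X * J + 22 := by
    rw [hx, hu]
    push_cast
    have h4 := (Pool.V1E.flo (mul_nonneg (by positivity : (0 : ℝ) ≤ 2 * (ζ + 3 * (C * η₀)) + η₀) hJ0)).1
    have h8 := (Pool.V1E.flo (mul_nonneg (by linarith : (0 : ℝ) ≤ C) (mul_nonneg hη hJ0))).1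
    have h5 : C * η₀ + (2 * (ζ + 3 * (C * η₀)) + η₀) ≤ 8 * X := by
      have h6 : X = C * ζ + C * η₀ := by rw [hX]; ring
      have h7 : ζ ≤ C * ζ := le_mul_of_one_le_left hζ hC
      have h8 : η₀ ≤ C * η₀ := le_mul_of_one_le_left hη hC
      have h9 : 0 ≤ C * η₀ := by positivity
      linarith
    have h9 := mulJ h5
    linarith
  obtain ⟨Gn, hGn⟩ : ∃ Gn : ℕ, Gn = ⌊gn * J⌋₊ := ⟨_, rfl⟩
  rw [← hGn] at fg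
  obtain ⟨N₀, hN₀⟩ : ∃ N₀ : ℕ, N₀ = C₁ * (u + x + Gn + 1) := ⟨_, rfl⟩
  have hXJ : 0 ≤ X * J := mul_nonneg hX0 hJ0
  have hgJ : 0 ≤ gn * J := mul_nonneg hgn hJ0
  have hN₀r : (N₀ : ℝ) ≤ (8 * C₁ + 32) * (X + gn) * J + 22 * C₁ := by
    rw [hN₀]
    push_cast
    have h4 : (u : ℝ) + x + Gn + 1 ≤ 8 * X * J + 22 + gn * J := by linarith [fg.1]
    have h5 := mul_le_mul_of_nonneg_left h4 hC₁
    have h6 : 0 ≤ (C₁ : ℝ) * (gn * J) := mul_nonneg hC₁ hgJ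
    have e1 : (8 * (C₁ : ℝ) + 32) * (X + gn) * J + 22 * C₁ = C₁ * (8 * X * J + 22 + gn * J) +
        32 * (X * J) + 7 * (C₁ * (gn * J)) + 32 * (gn * J) := by ring
    rw [e1]
    linarith
  have hN₀Q : (N₀ : ℝ) ≤ δ * Q := by
    have h4 := mul_le_mul_of_nonneg_left hQl N.δ0.le
    rw [hk] at j2
    linarith [N.δ1]
  have hN₀Q' : N₀ ≤ Q := by
    have h4 : (N₀ : ℝ) ≤ Q := hN₀Q.trans (by
      have := mul_le_mul_of_nonneg_right N.δ1 (Nat.cast_nonneg Q : (0 : ℝ) ≤ Q)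
      linarith)
    exact_mod_cast h4
  have hdet : ∀ {Y : Type} {y : F.Ω → Y} {w : ℝ}, w ≤ o 4 → Pool.RCD.Cl2 (Pool.PB.ptr F J) (Pool.RCD.vg w J F) A y →
      Pool.Agent.H49.Ent.Det (Pool.Agent.H49.Ent.cond F.p A True) (fun ω => Pool.PB.ptr F J ω) y ∧
      Pool.Agent.H49.Ent.Det (Pool.Agent.H49.Ent.cond F.p A True) (Pool.KSAT.slam F ⌊o 4 * J⌋₊) y := by
    intro Y y w hw hy
    obtain ⟨⟨φ, hφ⟩, χ, hχ⟩ := hy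
    refine ⟨fun ω ω' hω hω' hh => ?_, fun ω ω' hω hω' hh => ?_⟩
    · rw [hφ ω (hqA ω hω), hφ ω' (hqA ω' hω')]
      exact congrArg φ hh
    · rw [hχ ω (hqA ω hω), hχ ω' (hqA ω' hω')]
      have h4 : ⌊w * J⌋₊ ≤ ⌊o 4 * J⌋₊ := Nat.floor_le_floor (mulJ hw)
      have h5 : ⌊o 4 * J⌋₊ ≤ J := l4a.trans laJ
      show χ (Pool.KSAT.slam F ⌊w * J⌋₊ ω) = χ (Pool.KSAT.slam F ⌊w * J⌋₊ ω')
      rw [Pool.PB.slam_coarse F h4 h5 ω, Pool.PB.slam_coarse F h4 h5 ω', hh]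
  obtain ⟨dv1, dv2⟩ := hdet (ho12.le.trans ho24.le) hv
  obtain ⟨dw1, dw2⟩ := hdet ho24.le hv'
  have hn4 : ∀ l < r, s l + Q + 2 + uB ≤ g₀ 4 l := by
    intro l hl
    have h4 : ((s l + Q + 2 + uB : ℕ) : ℝ) ≤ g₀ 4 l := by
      push_cast
      refine le_trans ?_ (hg4 l hl)
      have h5 := (hsl l hl).1
      have h6 := mulJ (N.lv4 l hl)
      have h7 := fc.1
      rw [hk] at j1
      linarith
    exact_mod_cast h4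
  have hn0 : ∀ l < r, s l + Q + 2 + uB ≤ ⌊b 2 l * J⌋₊ + (⌊o 4 * J⌋₊ - ⌊o 2 * J⌋₊) := by
    intro l hl
    have h4 : ((s l + Q + 2 + uB : ℕ) : ℝ) ≤
        ((⌊b 2 l * J⌋₊ + (⌊o 4 * J⌋₊ - ⌊o 2 * J⌋₊) : ℕ) : ℝ) := by
      rw [Nat.cast_add (⌊b 2 l * J⌋₊), Nat.cast_sub (l01.trans (l12.trans l24))]
      push_cast
      have h5 := (hsl l hl).1
      have h6 := mulJ (N.lv2 l hl)
      have h7 := fc.1
      have h8 := hg0 l hl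
      rw [hk] at j1
      linarith [f0.1, f4.2]
    exact_mod_cast h4
  refine hcl Wd (fun _ hω => hω) (by rw [one_mul]) (fun ω hω l hl => c2 ω hω l (by omega))
    (w := ⌊o 4 * J⌋₊) (G' := G 4) (H' := H 4) (g' := g₀ 4) l24 l4a
    (fun ω hω l hl => c4 ω hω l (by omega)) (fun ω hω l hl => p4 ω hω l (by omega))
    (fun l hl => (by omega : s l + Q + 2 ≤ s l + Q + 2 + uB).trans (hn4 l hl))
    (fun ω hω l hl b' hb' => ?_) hN₀ (hN₀Q'.trans Wd.QM) ?_ (fun l hl => ?_)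
    (fun l hl => ?_) dv1 dw1 dv2 dw2 hT _ hN₀Q
  · refine (b4 ω hω l hl.le b' hb').trans ?_
    rw [div_le_div_iff₀ (by positivity) (by positivity), one_mul, ← pow_add]
    refine pow_le_pow_right₀ (by norm_num) ?_
    rw [show uB + (s l + Q + 2) = s l + Q + 2 + uB by omega]
    exact le_min (hn0 l hl) (hn4 l hl)
  · refine Nat.le_floor ?_
    push_cast
    rw [hk] at j3
    have h4 := fe.1
    have e1 : (Eb + 2 * η₀ + (8 * (C₁ : ℝ) + 32) * (X + gn)) * J = (Eb + 2 * η₀) * J +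
      (8 * (C₁ : ℝ) + 32) * (X + gn) * J := by ring
    rw [e1] at j3
    linarith
  · have h4 : ((e₀ + s l + Q + N₀ : ℕ) : ℝ) ≤ J := by
      push_cast
      have h5 := j4 l hl
      rw [hk] at h5
      have e1 : (Eb + 2 * η₀ + lv 0 l + (o 3 - o 0) + (8 * (C₁ : ℝ) + 32) * (X + gn)) * J =
        (Eb + 2 * η₀) * J + lv 0 l * J + (o 3 - o 0) * J +
        (8 * (C₁ : ℝ) + 32) * (X + gn) * J := by ring
      rw [e1] at h5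
      linarith [(hsl l hl).1, fe.1]
    exact_mod_cast h4
  · show ⌊(Pool.CHT.bet P c l aq aq + h) * J⌋₊ + ⌊o 4 * J⌋₊ ≤ s l + Q + Gn + ⌊(aq : ℝ) * J⌋₊
    have h5 := j5 l hl
    have h6 := (hsl l hl).2
    rw [hk] at h5 j6
    have h7 : (0 : ℝ) ≤ s l := Nat.cast_nonneg _
    rcases le_total 0 (Pool.CHT.bet P c l aq aq + h) with h8 | h8
    · have h4 : ((⌊(Pool.CHT.bet P c l aq aq + h) * J⌋₊ + ⌊o 4 * J⌋₊ : ℕ) : ℝ) ≤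
          ((s l + Q + Gn + ⌊(aq : ℝ) * J⌋₊ : ℕ) : ℝ) := by
        push_cast
        have h9 := (Pool.V1E.flo (mul_nonneg h8 hJ0)).1
        linarith [f4.1, fa.2, fg.2]
      exact_mod_cast h4
    · have h9 : ⌊(Pool.CHT.bet P c l aq aq + h) * J⌋₊ = 0 :=
        Nat.floor_of_nonpos (mul_nonpos_of_nonpos_of_nonneg h8 hJ0)
      rw [h9]
      omega

end Pool.W.NHZ
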